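import Mathlib

namespace Pool.Agent.Results.MP_9bce75_nt.Counter

open Finset

/-- the number of distinct sums of non-empty sets of proper divisors of `n` -/
def a (n : ℕ) : ℕ :=
  (((Nat.properDivisors n).powerset.filter fun S => S.Nonempty).image fun S => ∑ d ∈ S, d).card

theorem key (q r : ℕ) (hq : q ≤ 16) (hr : r ≤ 28) :
    ∃ S ⊆ ({1, 2, 3, 4, 6, 12, 41, 82, 123, 164, 246} : Finset ℕ), ∑ d ∈ S, d = 41 * q + r := by
  have h1 : ∀ r ∈ range 29, ∃ S ∈ ({1, 2, 3, 4, 6, 12} : Finset ℕ).powerset, ∑ d ∈ S, d = r := by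
    decide +kernel
  have h2 : ∀ q ∈ range 17, ∃ S ∈ ({41, 82, 123, 164, 246} : Finset ℕ).powerset,
      ∑ d ∈ S, d = 41 * q := by
    decide +kernel
  obtain ⟨A, hA, eA⟩ := h1 r (mem_range.2 (by omega))
  obtain ⟨B, hB, eB⟩ := h2 q (mem_range.2 (by omega))
  rw [mem_powerset] at hA hB
  have hd : Disjoint A B := Disjoint.mono hA hB (by decide)
  refine ⟨A ∪ B, ?_, by rw [sum_union hd, eA, eB, add_comm]⟩
  exact (union_subset_union hA hB).trans (by decide)

theorem key2 (S : Finset ℕ) (hS : S ⊆ ({1, 2, 3, 4, 6, 12, 41, 82, 123, 164, 246} : Finset ℕ)) :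
    ∃ q r, q ≤ 16 ∧ r ≤ 28 ∧ ∑ d ∈ S, d = 41 * q + r := by
  have h2 : ∀ B ∈ ({41, 82, 123, 164, 246} : Finset ℕ).powerset, ∃ q ∈ range 17,
      ∑ d ∈ B, d = 41 * q := by
    decide +kernel
  have hA : S.filter (fun d => d < 41) ⊆ ({1, 2, 3, 4, 6, 12} : Finset ℕ) :=
    (filter_subset_filter _ hS).trans (by decide)
  have hB : S.filter (fun d => ¬ d < 41) ⊆ ({41, 82, 123, 164, 246} : Finset ℕ) :=
    (filter_subset_filter _ hS).trans (by decide)
  obtain ⟨q, hq, eq⟩ := h2 _ (mem_powerset.2 hB)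
  have h3 := sum_le_sum_of_subset (f := fun d : ℕ => d) hA
  have h4 : ∑ d ∈ ({1, 2, 3, 4, 6, 12} : Finset ℕ), d = 28 := by decide
  have h5 := sum_filter_add_sum_filter_not S (fun d => d < 41) (fun d => d)
  exact ⟨q, _, by have := mem_range.1 hq; omega, h4 ▸ h3, by omega⟩

theorem a492 : a 492 = 492 := by
  have hD : Nat.properDivisors 492 = {1, 2, 3, 4, 6, 12, 41, 82, 123, 164, 246} := by
    decide +kernel
  have e : (((Nat.properDivisors 492).powerset.filter fun S => S.Nonempty).image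
      fun S => ∑ d ∈ S, d) = (range 685).filter fun m => m ≠ 0 ∧ m % 41 ≤ 28 := by
    ext m
    simp only [hD, mem_image, mem_filter, mem_powerset, mem_range]
    constructor
    · rintro ⟨S, ⟨hS, x, hx⟩, rfl⟩
      obtain ⟨q, r, hq, hr, e⟩ := key2 S hS
      have h1 : x ≤ ∑ d ∈ S, d := single_le_sum (f := fun d : ℕ => d) (fun _ _ => Nat.zero_le _) hx
      have h2 : x ≠ 0 := by
        rintro rfl
        exact absurd (hS hx) (by decide)
      omega
    · rintro ⟨h1, h2, h3⟩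
      obtain ⟨S, hS, e⟩ := key (m / 41) (m % 41) (by omega) h3
      refine ⟨S, ⟨hS, ?_⟩, by omega⟩
      rw [nonempty_iff_ne_empty]
      rintro rfl
      simp at e
      omega
  unfold a
  rw [e]
  decide +kernel

theorem result : ¬ ∀ n : ℕ, 0 < n → a n = n → Even n ∧ ∑ d ∈ Nat.properDivisors n, d = n := by
  intro H
  have h := (H 492 (by norm_num) a492).2
  revert h
  decide +kernel

end Pool.Agent.Results.MP_9bce75_nt.Counter
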